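import Pool.Agent.Y45.MON.LStm

/-!
# Project MON, job LG6: the semigroup statement
-/

set_option autoImplicit false

namespace Pool.Agent.Y655.MON

open Pool.Agent.Y45.MON

/-! ### The reduction -/

/-- the positive word of a group word, in the letters `1, 2, …` -/
def posW (N : ℕ) (W : List (ℕ × Bool)) : List ℕ :=
  W.flatMap fun s => bif s.2 then [s.1 + 1] else List.replicate (N - 1) (s.1 + 1)

/-- the identities -/
def ids (N : ℕ) (L : List (List (ℕ × Bool))) : List ((ℕ × List ℕ) × (ℕ × List ℕ)) :=
  ((0, List.replicate (N - 1) 0 ++ [1]), (1, [])) :: ((1, List.replicate N 0), (1, [])) ::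
    L.map fun W => ((0, posW N W), (0, []))

theorem primrec_replicate (K : ℕ) : Primrec fun m : ℕ => List.replicate K m := by
  induction K with
  | zero => exact Primrec.const []
  | succ K ih => exact Primrec.list_cons.comp Primrec.id ih

theorem primrec_posW (N : ℕ) : Primrec (posW N) := by
  unfold posW
  refine Primrec.list_flatMap Primrec.id ?_
  refine Primrec.cond (Primrec.snd.comp Primrec.snd) ?_ ?_
  · exact Primrec.list_cons.comp (Primrec.succ.comp (Primrec.fst.comp Primrec.snd))
      (Primrec.const [])
  · exact (primrec_replicate (N - 1)).comp (Primrec.succ.comp (Primrec.fst.comp Primrec.snd))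

theorem primrec_ids (N : ℕ) : Primrec (ids N) := by
  unfold ids
  refine Primrec.list_cons.comp (Primrec.const _) (Primrec.list_cons.comp (Primrec.const _) ?_)
  refine Primrec.list_map Primrec.id ?_
  refine Primrec.pair (Primrec.pair (Primrec.const 0) ?_) (Primrec.const _)
  exact (primrec_posW N).comp Primrec.snd

/-! ### Values -/

theorem foldl_eq {M : Type} [Monoid M] (f : ℕ → M) (l : List ℕ) (a : M) :
    l.foldl (fun s b => s * f b) a = a * (l.map f).prod := by
  induction l generalizing a with
  | nil => simp
  | cons b l ih => rw [List.foldl_cons, ih, List.map_cons, List.prod_cons, mul_assoc]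

theorem sgv_eq {M : Type} [Monoid M] (f : ℕ → M) (w : ℕ × List ℕ) :
    sgv f w = f w.1 * (w.2.map f).prod := foldl_eq f w.2 (f w.1)

theorem coe_sgv {S : Type} [Semigroup S] (f : ℕ → S) (w : ℕ × List ℕ) :
    ((sgv f w : S) : WithOne S) = (f w.1 : WithOne S) * (w.2.map fun b => (f b : WithOne S)).prod := by
  have key : ∀ (l : List ℕ) (a : S), ((l.foldl (fun s b => s * f b) a : S) : WithOne S) =
      (a : WithOne S) * (l.map fun b => (f b : WithOne S)).prod := by
    intro l
    induction l with
    | nil => intro a; simp
    | cons b l ih =>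
      intro a
      rw [List.foldl_cons, ih, List.map_cons, List.prod_cons, WithOne.coe_mul, mul_assoc]
  exact key w.2 (f w.1)

/-- the value of a positive word in a group of exponent `N` -/
theorem prod_posW {G : Type} [Group G] {N : ℕ} (hN : 1 ≤ N) (hG : ∀ g : G, g ^ N = 1)
    (f : ℕ → G) (W : List (ℕ × Bool)) :
    ((posW N W).map f).prod = FreeGroup.lift (fun i => f (i + 1)) (FreeGroup.mk W) := by
  induction W with
  | nil => simp [posW, FreeGroup.one_eq_mk.symm]
  | cons s W ih =>
    have h1 : posW N (s :: W) =
        (bif s.2 then [s.1 + 1] else List.replicate (N - 1) (s.1 + 1)) ++ posW N W := by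
      simp [posW, List.flatMap_cons]
    have h2 : FreeGroup.mk (s :: W) = FreeGroup.mk [s] * FreeGroup.mk W := by
      rw [FreeGroup.mul_mk]
      rfl
    rw [h1, h2, map_mul, List.map_append, List.prod_append, ih]
    congr 1
    obtain ⟨i, b⟩ := s
    cases b
    · have h3 : (f (i + 1)) ^ (N - 1) = (f (i + 1))⁻¹ := by
        rw [eq_inv_iff_mul_eq_one, ← pow_succ, Nat.sub_add_cancel hN, hG]
      simp [h3]
    · simp

theorem pow_of_mem {G : Type} [Group G] {N : ℕ} {L : List (List (ℕ × Bool))}
    (hL : List.replicate N ((0 : ℕ), true) ∈ L)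
    (h : ∀ W ∈ L, ∀ f : ℕ → G, FreeGroup.lift f (FreeGroup.mk W) = 1) (g : G) : g ^ N = 1 := by
  have h1 := h _ hL fun _ => g
  have h2 : ∀ m : ℕ, FreeGroup.lift (fun _ : ℕ => g) (FreeGroup.mk (List.replicate m ((0 : ℕ), true))) =
      g ^ m := by
    intro m
    induction m with
    | zero => simp [FreeGroup.one_eq_mk.symm]
    | succ m ih =>
      have h3 : FreeGroup.mk (List.replicate (m + 1) ((0 : ℕ), true)) =
          FreeGroup.mk [((0 : ℕ), true)] * FreeGroup.mk (List.replicate m ((0 : ℕ), true)) := by
        rw [FreeGroup.mul_mk, List.replicate_succ]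
        rfl
      rw [h3, map_mul, ih, pow_succ']
      simp
  rw [h2] at h1
  exact h1

/-- groups which satisfy the words satisfy the identities -/
theorem sat_of_group {G : Type} [Group G] {N : ℕ} (hN : 1 ≤ N) (L : List (List (ℕ × Bool)))
    (hG : ∀ g : G, g ^ N = 1)
    (h : ∀ W ∈ L, ∀ f : ℕ → G, FreeGroup.lift f (FreeGroup.mk W) = 1) : SgSat G (ids N L) := by
  intro u hu f
  rw [sgv_eq, sgv_eq]
  unfold ids at hu
  rw [List.mem_cons, List.mem_cons, List.mem_map] at hu
  rcases hu with rfl | rfl | ⟨W, hW, rfl⟩
  · simp only [List.map_append, List.map_replicate, List.prod_append, List.prod_replicate,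
      List.map_cons, List.map_nil, List.prod_cons, List.prod_nil, mul_one]
    rw [← mul_assoc, ← pow_succ', Nat.sub_add_cancel hN, hG, one_mul]
  · simp only [List.map_replicate, List.prod_replicate, List.map_nil, List.prod_nil, mul_one]
    rw [hG, mul_one]
  · simp only [List.map_nil, List.prod_nil, mul_one]
    rw [prod_posW hN hG, h W hW, mul_one]

/-- a semigroup which satisfies the identities is a group which satisfies the words -/
theorem group_of_sat {S : Type} [inst : Semigroup S] [Nonempty S] {N : ℕ} (hN : 2 ≤ N)
    (L : List (List (ℕ × Bool))) (h : SgSat S (ids N L)) :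
    ∃ GS : Group S, (@Monoid.toSemigroup S GS.toMonoid = inst) ∧ (∀ g : S, g ^ N = 1) ∧
      ∀ W ∈ L, ∀ f : ℕ → S, FreeGroup.lift f (FreeGroup.mk W) = 1 := by
  -- the identities in the monoid
  have h1 : ∀ x y : S, (x : WithOne S) ^ N * y = y := by
    intro x y
    have h2 := h _ (List.mem_cons_self) (fun i => if i = 0 then x else y)
    have h3 := congrArg (fun s : S => (s : WithOne S)) h2
    simp only [coe_sgv, List.map_append, List.map_replicate, List.prod_append,
      List.prod_replicate, List.map_cons, List.map_nil, List.prod_cons, List.prod_nil, mul_one,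
      if_pos, if_neg one_ne_zero] at h3
    rw [← mul_assoc, ← pow_succ', Nat.sub_add_cancel (by omega)] at h3
    exact h3
  have h2 : ∀ x y : S, (y : WithOne S) * (x : WithOne S) ^ N = y := by
    intro x y
    have h2 := h _ (List.mem_cons_of_mem _ List.mem_cons_self) (fun i => if i = 0 then x else y)
    have h3 := congrArg (fun s : S => (s : WithOne S)) h2
    simp only [coe_sgv, List.map_replicate, List.prod_replicate, List.map_nil, List.prod_nil,
      mul_one, if_pos, if_neg one_ne_zero] at h3
    exact h3
  -- powers
  let pw : S → ℕ → S := fun x k => sgv (fun _ => x) (0, List.replicate k 0)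
  have hpw : ∀ x k, ((pw x k : S) : WithOne S) = (x : WithOne S) ^ (k + 1) := by
    intro x k
    show ((sgv (fun _ => x) (0, List.replicate k 0) : S) : WithOne S) = _
    rw [coe_sgv]
    simp only [List.map_replicate, List.prod_replicate]
    rw [pow_succ']
  obtain ⟨x0⟩ := ‹Nonempty S›
  obtain ⟨e, he⟩ : ∃ e : S, (e : WithOne S) = (x0 : WithOne S) ^ N :=
    ⟨pw x0 (N - 1), by rw [hpw, Nat.sub_add_cancel (by omega)]⟩
  have he1 : ∀ y : S, e * y = y := by
    intro y
    apply WithOne.coe_injective
    rw [WithOne.coe_mul, he]
    exact h1 x0 y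
  have he2 : ∀ y : S, y * e = y := by
    intro y
    apply WithOne.coe_injective
    rw [WithOne.coe_mul, he]
    exact h2 x0 y
  have hpe : ∀ x : S, pw x (N - 1) = e := by
    intro x
    have h3 : pw x (N - 1) * e = e := by
      apply WithOne.coe_injective
      rw [WithOne.coe_mul, hpw, Nat.sub_add_cancel (by omega)]
      exact h1 x e
    rw [← he2 (pw x (N - 1)), h3]
  let GS : Group S :=
    { inst with
      one := e
      one_mul := he1
      mul_one := he2
      inv := fun x => pw x (N - 2)
      inv_mul_cancel := fun x => by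
        show pw x (N - 2) * x = e
        rw [← hpe x]
        apply WithOne.coe_injective
        rw [WithOne.coe_mul, hpw, hpw, ← pow_succ]
        congr 1
        omega }
  refine ⟨GS, rfl, ?_⟩
  have hsat : @SgSat S (@Monoid.toSemigroup S GS.toMonoid) (ids N L) := h
  have hG : ∀ g : S, g ^ N = 1 := by
    intro g
    have h3 := hsat _ (List.mem_cons_of_mem _ List.mem_cons_self) (fun i => if i = 0 then g else 1)
    rw [sgv_eq, sgv_eq] at h3
    simp only [List.map_replicate, List.prod_replicate, List.map_nil, List.prod_nil,
      mul_one, if_pos, if_neg one_ne_zero, one_mul] at h3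
    exact h3
  refine ⟨hG, fun W hW f => ?_⟩
  have h3 := hsat ((0, posW N W), (0, [])) (List.mem_cons_of_mem _ (List.mem_cons_of_mem _
    (List.mem_map_of_mem hW))) (fun i => if i = 0 then 1 else f (i - 1))
  rw [sgv_eq, sgv_eq, prod_posW (by omega) hG] at h3
  simp only [List.map_nil, List.prod_nil, mul_one, if_pos, one_mul] at h3
  have h4 : (fun i : ℕ => if i + 1 = 0 then (1 : S) else f (i + 1 - 1)) = f := by
    funext i
    rw [if_neg (Nat.succ_ne_zero i), Nat.add_sub_cancel]
  rw [h4] at h3
  exact h3

theorem sg (hC : CoreStmt) : SgStmt := by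
  obtain ⟨p, q, F, P, hp, hq, -, hF, hP, hrep, hhalt, U, hnot⟩ := hC
  intro hcomp
  apply hP
  obtain ⟨N, hN⟩ : ∃ N, N = p * q := ⟨_, rfl⟩
  have hN2 : 2 ≤ N := by
    rw [hN]
    calc 2 ≤ p := hp.two_le
      _ ≤ p * q := Nat.le_mul_of_pos_right p hq.pos
  rw [← hN] at hrep
  have key : ∀ n, ¬ P n ↔ ∃ (S : Type) (_ : Semigroup S), SgSat S (ids N (F n)) ∧ Infinite S ∧
      (∃ A : Set S, A.Finite ∧ Subsemigroup.closure A = ⊤) ∧
      ∀ s : S, (Subsemigroup.closure {s} : Set S).Finite := by
    intro n
    constructor
    · intro hn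
      obtain ⟨G, _, h1, ⟨x, y, hxy, -⟩, hinf, -⟩ := hnot n hn ∅
      have hG : ∀ g : G, g ^ N = 1 := pow_of_mem (hrep n) h1
      refine ⟨G, inferInstance, sat_of_group (by omega) (F n) hG h1, hinf, ⟨{x, y}, by simp, ?_⟩,
        ?_⟩
      · -- generation
        have hpow : ∀ z ∈ Subsemigroup.closure ({x, y} : Set G), ∀ k : ℕ,
            z ^ (k + 1) ∈ Subsemigroup.closure ({x, y} : Set G) := by
          intro z hz k
          induction k with
          | zero => rwa [zero_add, pow_one]
          | succ k ih => rw [pow_succ]; exact mul_mem ih hz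
        have hx : x ∈ Subsemigroup.closure ({x, y} : Set G) :=
          Subsemigroup.subset_closure (by simp)
        have h3 : Subgroup.closure ({x, y} : Set G) ≤
            { carrier := (Subsemigroup.closure ({x, y} : Set G) : Set G)
              mul_mem' := fun ha hb => mul_mem ha hb
              one_mem' := by
                have := hpow x hx (N - 1)
                rw [Nat.sub_add_cancel (by omega), hG] at this
                exact this
              inv_mem' := fun {z} hz => by
                have h4 := hpow z hz (N - 2)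
                have h5 : z ^ (N - 2 + 1) = z⁻¹ := by
                  rw [eq_inv_iff_mul_eq_one, ← pow_succ, show N - 2 + 1 + 1 = N by omega, hG]
                rw [h5] at h4
                exact h4 } := by
          rw [Subgroup.closure_le]
          exact Subsemigroup.subset_closure
        rw [hxy] at h3
        rw [eq_top_iff]
        intro z _
        exact h3 (Subgroup.mem_top z)
      · intro s
        have h3 : IsOfFinOrder s := isOfFinOrder_iff_pow_eq_one.2 ⟨N, by omega, hG s⟩
        refine (finite_zpowers.2 h3).subset ?_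
        have h4 : Subsemigroup.closure ({s} : Set G) ≤ (Subgroup.zpowers s).toSubsemigroup := by
          rw [Subsemigroup.closure_le]
          rintro z rfl
          exact Subgroup.mem_zpowers z
        exact h4
    · rintro ⟨S, inst, hsat, hinf, ⟨A, hA, hcl⟩, -⟩ hPn
      have : Nonempty S := hinf.nonempty
      obtain ⟨GS, hGS, hG, hW⟩ := group_of_sat (S := S) hN2 (F n) hsat
      subst hGS
      have hcomm := hhalt n hPn S hW
      let CG : CommGroup S := { GS with mul_comm := hcomm }
      have hfg : Group.FG S := by
        rw [Group.fg_iff]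
        refine ⟨A, ?_, hA⟩
        rw [eq_top_iff]
        have h3 : Subsemigroup.closure A ≤ (Subgroup.closure A).toSubsemigroup := by
          rw [Subsemigroup.closure_le]
          exact Subgroup.subset_closure
        rw [hcl] at h3
        intro z _
        exact h3 (Subsemigroup.mem_top z)
      have htor : IsMulTorsion S := fun g =>
        isOfFinOrder_iff_pow_eq_one.2 ⟨N, by omega, hG g⟩
      have := CommGroup.finite_of_fg_isMulTorsion S htor
      exact not_finite S
  have h1 : ComputablePred fun n => ¬ P n := by
    refine ComputablePred.computable_of_manyOneReducible ⟨fun n => ids N (F n), ?_, key⟩ hcomp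
    exact (primrec_ids N).to_comp.comp hF
  exact h1.not.of_eq fun n => not_not

end Pool.Agent.Y655.MON
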