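import Pool.Agent.Y45.MON.StmG
import Pool.Agent.TH54.BU.Rigid
import Pool.Agent.TH54.BU.Key

/-!
# Project MON, job G12: rigidity of the commutator words
-/

set_option autoImplicit false

namespace Pool.Agent.Y655.MON

open Pool.Agent.TH54.BU Pool.Agent.Y45.MON

/-- the vertices of the broken line of the powers of `α x ^ φ α⁻¹ x ^ (-φ)` -/
def rv {G : Type} [Group G] (x α : G) (φ : ℤ) : ℕ → G
  | 0 => 1
  | k + 1 => rv x α φ k * (if k % 2 = 0 then α else α⁻¹) * x ^ (if k % 2 = 0 then φ else -φ)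

theorem rv_even {G : Type} [Group G] (x α : G) (φ : ℤ) (N : ℕ) :
    rv x α φ (2 * N) = (α * x ^ φ * α⁻¹ * x ^ (-φ)) ^ N := by
  induction N with
  | zero =>
    rw [mul_zero, pow_zero]
    rfl
  | succ N ih =>
    rw [show 2 * (N + 1) = 2 * N + 1 + 1 by ring, rv, rv, ih, if_pos (by omega), if_pos (by omega),
      if_neg (by omega), if_neg (by omega), pow_succ]
    group

theorem rig2 (hGen : GenStmt) (hPcb : PcbStmt) (hGwin : GwinStmt) (hMatch : MatchStmt)
    (hRgen : RgenStmt) (hGauge : Gauge2Stmt) : Rig2Stmt := by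
  intro G _ H c θ T L n M _ F E Θ C hT hprim ρ φ i α hα hαn hφ hn
  obtain ⟨ω, hω⟩ : ∃ ω : G, ω = α * L.x i ^ φ * α⁻¹ * L.x i ^ (-φ) := ⟨_, rfl⟩
  rw [← hω]
  obtain ⟨v, hv⟩ : ∃ v : ℕ → G, v = rv (L.x i) α φ := ⟨_, rfl⟩
  obtain ⟨cs, hcs⟩ : ∃ cs : ℕ → G, cs = fun k => if k % 2 = 0 then α else α⁻¹ := ⟨_, rfl⟩
  obtain ⟨f, hf⟩ : ∃ f : ℕ → ℤ, f = fun k => if k % 2 = 0 then φ else -φ := ⟨_, rfl⟩
  have hv0 : v 0 = 1 := by rw [hv]; rfl
  have hvs : ∀ k, v (k + 1) = v k * cs k * L.x i ^ f k := by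
    intro k
    rw [hv, hcs, hf]
    rfl
  have hαn' : α⁻¹ ∉ Subgroup.zpowers (L.x i) := by
    intro h
    apply hαn
    have := (Subgroup.zpowers (L.x i)).inv_mem h
    rwa [inv_inv] at this
  have hBr : Br L i cs f v := by
    refine ⟨hv0, hvs, fun k => ?_⟩
    rw [hcs]
    simp only
    split_ifs
    · exact hαn
    · exact hαn'
  have hlen : ∀ k, H.len (cs k) ≤ ρ := by
    intro k
    rw [hcs]
    simp only
    split_ifs
    · exact hα
    · rw [H.len_inv]
      exact hα
  have hvN : ∀ N, v (2 * N) = ω ^ N := by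
    intro N
    rw [hv, hω]
    exact rv_even _ _ _ N
  -- the numbers
  obtain ⟨Φ, hΦ⟩ : ∃ Φ : ℕ, (Φ : ℤ) = |φ| := ⟨φ.natAbs, (Int.abs_eq_natAbs φ).symm⟩
  have hfabs : ∀ k, |f k| = Φ := by
    intro k
    rw [hf, hΦ]
    simp only
    split_ifs
    · rfl
    · rw [abs_neg]
  rw [← hΦ] at hφ
  have hK : cst L Θ ρ = 1000 * (T * c) + 1000 * (T * θ) + 1000 * (T * Θ) + 1000 * (T * ρ) +
      1000 * T + 1000 := by
    unfold cst
    ring
  have hK0 : cst L 0 ρ = 1000 * (T * c) + 1000 * (T * θ) + 1000 * (T * ρ) + 1000 * T + 1000 := by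
    unfold cst
    ring
  have hthr : L.thr = 2 * (T * c) + T * θ + T := by
    unfold LS.thr
    ring
  have hφN : cst L Θ ρ < Φ := by exact_mod_cast hφ
  have hnN : ∀ i, 100 * (Φ + cst L Θ ρ) ≤ n i := by
    intro i
    have := hn i
    rw [← hΦ] at this
    exact_mod_cast this
  have hK00 : cst L 0 ρ ≤ cst L Θ ρ := by omega
  obtain ⟨hg1, hg2⟩ := hGwin G H c θ T L i cs f v ρ Φ hBr hlen
    (fun k => by rw [hfabs]; exact_mod_cast lt_of_le_of_lt hK00 hφN) (fun k => (hfabs k).le)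
  have hwin : ∀ (j : L.ι) (w : G) (N : ℕ), (L.s j w 1 (ω ^ N)).natAbs ≤ Φ + cst L 0 ρ := by
    intro j w N
    have := hg1 j w (2 * N)
    rw [hv0, hvN, Int.abs_eq_natAbs] at this
    exact_mod_cast this
  -- the sharper window at the first line
  have hPC : ∀ k, PC L i (T * (ρ + c + θ)) (cs k) := fun k =>
    hPcb G H c θ T L i (cs k) ρ (hBr.nc k) (hlen k)
  have hP : T * (ρ + c + θ) = T * ρ + T * c + T * θ := by ring
  obtain ⟨-, -, -, -, hg3, -, -⟩ := hGen G H c θ T L i cs f v (T * (ρ + c + θ)) hBr hPC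
    (fun k => by
      rw [hfabs]
      have : 4 * (T * (ρ + c + θ)) + 8 * L.thr + 8 < Φ := by omega
      exact_mod_cast this)
  have hf0 : f 0 = φ := by rw [hf]; rfl
  have hfar : ∀ N : ℕ, 0 < N → T * (ρ + c) < (L.s i (v 1) 1 (ω ^ N)).natAbs := by
    intro N hN
    have h1 := hg3 0 (2 * N) (by omega)
    rw [hv0, hvN, hf0, zero_add] at h1
    have h2 : (L.s i (v 1) 1 (ω ^ N) - φ).natAbs ≤ 2 * (T * (ρ + c + θ) + L.thr) := by
      rw [Int.abs_eq_natAbs] at h1
      exact_mod_cast h1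
    have h3 : φ.natAbs = Φ := by
      have := hΦ
      rw [Int.abs_eq_natAbs] at this
      exact_mod_cast this.symm
    have h4 : T * (ρ + c) = T * ρ + T * c := by ring
    omega
  have hsm : ∀ (j : L.ι) (w z : G), H.len z ≤ ρ → (L.s j w 1 z).natAbs ≤ T * (ρ + c) := by
    intro j w z hz
    have h1 := L.wf_lin_z j (L.s j w 1 z)
    have h2 := L.az_lip j w 1 z
    rw [H.d_one] at h2
    exact h1.trans (Nat.mul_le_mul_left _ (h2.trans (by omega)))
  have hTρ : T * (ρ + c) = T * ρ + T * c := by ring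
  have hne : ∀ (N : ℕ) (z : G), 0 < N → H.len z ≤ ρ → z ≠ ω ^ N := by
    intro N z hN hz he
    have h1 := hfar N hN
    have h2 := hsm i (v 1) z hz
    rw [he] at h2
    omega
  refine ⟨?_, ?_⟩
  · intro hfin
    obtain ⟨N, hN, hN1⟩ := isOfFinOrder_iff_pow_eq_one.1 hfin
    rw [← QuotientGroup.mk_pow, QuotientGroup.eq_one_iff] at hN1
    have h1 : ω ^ N ≠ 1 := by
      intro h
      exact hne N 1 hN (by rw [H.len_one]; exact Nat.zero_le _) h.symm
    obtain ⟨j, w, h2⟩ := F.gr _ hN1 h1 1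
    rw [mul_one, Int.abs_eq_natAbs] at h2
    have h3 := hwin j w N
    have h4 := hnN j
    omega
  · intro z hz hz1 hcomm
    have hcM : z * ω * z⁻¹ * ω⁻¹ ∈ M := by
      rw [← QuotientGroup.eq_one_iff, QuotientGroup.mk_mul, QuotientGroup.mk_mul,
        QuotientGroup.mk_mul, hcomm, QuotientGroup.mk_inv, QuotientGroup.mk_inv]
      group
    have hR := hRgen G H c θ T L n M F E Θ C (Φ + cst L 0 ρ + 1) ω ω z hT (by omega)
      (fun j => by
        have := hnN j
        have h9 : T * (2 * c + 1) = 2 * (T * c) + T := by ring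
        omega)
      (fun N j u => by
        have := hwin j u N
        rw [Int.abs_eq_natAbs]
        exact_mod_cast Nat.lt_succ_of_le this)
      (fun N j u => by
        have := hwin j u N
        rw [Int.abs_eq_natAbs]
        exact_mod_cast Nat.lt_succ_of_le this) hcM
    obtain ⟨m, hm, h2, he, hl1, hl2⟩ := hR (10 * ρ + 200)
    have hEz : E.len z ≤ ρ := (C.le z).trans hz
    rw [← hvN] at he
    obtain ⟨σ, hσ⟩ := hMatch G H c θ T L E Θ C hT i i cs cs f f v v ρ hBr hBr hlen hlen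
      (fun k => by rw [hfabs]; exact hφ) (fun k => by rw [hfabs]; exact hφ) ρ
      (2 * (10 * ρ + 200)) (2 * (10 * ρ + 200)) (m * z) h2 (hl1.trans hEz) (hl2.trans hEz) he
    -- the shift
    obtain ⟨l0, hl0, -, -, hfl, -⟩ := hσ (10 * ρ + 100) (by omega) (by omega)
    have hpar : l0 % 2 = (10 * ρ + 100) % 2 := by
      by_contra hcon
      have h3 : f (10 * ρ + 100) - f l0 = 2 * φ ∨ f (10 * ρ + 100) - f l0 = -(2 * φ) := by
        rw [hf]
        simp only
        by_cases h4 : l0 % 2 = 0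
        · right
          rw [if_neg (by omega), if_pos h4]
          ring
        · left
          rw [if_pos (by omega), if_neg h4]
          ring
      have h5 : |f (10 * ρ + 100) - f l0| = 2 * Φ := by
        rw [hΦ]
        rcases h3 with h3 | h3
        · rw [h3, abs_mul]
          norm_num
        · rw [h3, abs_neg, abs_mul]
          norm_num
      rw [h5] at hfl
      have h6 : 2 * Φ ≤ cst L Θ ρ := by exact_mod_cast hfl
      omega
    have hx : ∀ g : G, g ∉ Subgroup.zpowers (L.x i) → ∀ a b : ℤ,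
        L.x i ^ a * g = g * L.x i ^ b → a = 0 := by
      intro g hg a b hab
      refine L.rg_common (i1 := i) (i2 := i) (P1 := 1) (P2 := g) (fun _ => ?_) (k1 := a) (k2 := b) ?_
      · rw [inv_one, one_mul]
        exact hg
      · unfold LS.rt
        rw [← hab]
        group
    obtain ⟨t, ht⟩ := hGauge G (L.x i) (hprim i).1 hx α hαn φ v hv0
      (fun k => by rw [hvs k, hcs, hf]) (m * z) (10 * ρ + 100) l0 hpar (fun r hr => by
        obtain ⟨l, hl, -, -, -, h3⟩ := hσ (10 * ρ + 100 + r) (by omega) (by omega)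
        have h4 : l = l0 + r := by omega
        rw [h4] at h3
        exact h3)
    have hv2 : v 2 = ω := by
      have := hvN 1
      rwa [mul_one, pow_one] at this
    rw [hv2] at ht
    -- windows of all powers
    have hwz : ∀ (j : L.ι) (w : G), (L.s j w 1 (ω ^ t)).natAbs ≤ Φ + cst L 0 ρ := by
      intro j w
      rcases Int.eq_nat_or_neg t with ⟨N, rfl | rfl⟩
      · rw [zpow_natCast]
        exact hwin j w N
      · rw [zpow_neg, zpow_natCast]
        have h3 := L.ky_s_mul j (ω ^ N)⁻¹ w (ω ^ N) 1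
        rw [inv_mul_cancel, mul_one, inv_inv, L.wf_s_symm j _ 1 (ω ^ N)] at h3
        rw [h3, Int.natAbs_neg]
        exact hwin j _ N
    have hzt : z = ω ^ t := by
      by_contra hcon
      have h3 : z⁻¹ * ω ^ t ∈ M := by
        rw [← ht, show z⁻¹ * (m * z) = z⁻¹ * m * z⁻¹⁻¹ by group]
        exact F.normal.conj_mem m hm z⁻¹
      have h4 : z⁻¹ * ω ^ t ≠ 1 := fun h => hcon (inv_mul_eq_one.1 h)
      obtain ⟨j, w, h5⟩ := F.gr _ h3 h4 1
      rw [mul_one] at h5
      have h6 := L.wf_s_add j w 1 z⁻¹ (z⁻¹ * ω ^ t)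
      have h7 := L.ky_s_mul j z⁻¹ w 1 (ω ^ t)
      rw [mul_one] at h7
      rw [h7] at h6
      have h8 := hsm j w z⁻¹ (by rw [H.len_inv]; exact hz)
      have h9 := hwz j (z⁻¹⁻¹ * w)
      have h10 := hnN j
      rw [Int.abs_eq_natAbs] at h5
      omega
    rcases Int.eq_nat_or_neg t with ⟨N, hN | hN⟩
    · rcases Nat.eq_zero_or_pos N with h0 | h0
      · subst h0
        rw [hN, Int.natCast_zero, zpow_zero] at hzt
        exact hz1 hzt
      · rw [hN, zpow_natCast] at hzt
        exact hne N z h0 hz hzt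
    · rcases Nat.eq_zero_or_pos N with h0 | h0
      · subst h0
        rw [hN, Int.natCast_zero, neg_zero, zpow_zero] at hzt
        exact hz1 hzt
      · rw [hN, zpow_neg, zpow_natCast] at hzt
        refine hne N z⁻¹ h0 (by rw [H.len_inv]; exact hz) ?_
        rw [hzt, inv_inv]

end Pool.Agent.Y655.MON
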