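import Pool.Agent.Y45.MON.StmG
import Pool.Agent.TH54.BU.Rigid
import Pool.Agent.TH54.BU.Key

/-!
# Project MON, job G8: windows of a conjugate of a power of `x j`
-/

set_option autoImplicit false

namespace Pool.Agent.Y655.MON

open Pool.Agent.TH54.BU Pool.Agent.Y45.MON

/-- the windows of an element of minimal length in its class modulo `M` -/
theorem fv_min {G : Type} [Group G] {H : GH G} {c θ T : ℕ} (L : LS H c θ T) {n : L.ι → ℕ}
    {M : Subgroup G} (F : Fv L n M) (i : L.ι) (hn : T * (2 * c + 1) ≤ n i) {y : G}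
    (hmin : ∀ m ∈ M, H.len y ≤ H.len (m * y)) (w : G) :
    2 * |L.s i w 1 y| < n i + T * (2 * c + 1) := by
  by_contra hcon
  push Not at hcon
  obtain ⟨k, hk⟩ := L.shorten 0 (n := n i) (i := i) (u := w) (p := 1) (q := y)
    (by rw [add_zero]; exact hn) (by
      push_cast
      rw [add_zero]
      exact hcon)
  rw [add_zero, H.d_one, H.d_one] at hk
  have := hmin _ (F.rot i w k)
  omega

theorem len_pow_le {G : Type} [Group G] (H : GH G) (g : G) (m : ℕ) :
    H.len (g ^ m) ≤ m * H.len g := by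
  induction m with
  | zero => rw [pow_zero, H.len_one, zero_mul]
  | succ m ih =>
    rw [pow_succ, Nat.add_mul, one_mul]
    exact (H.len_mul _ _).trans (Nat.add_le_add_right ih _)

/-- the numerical estimate -/
theorem tau_num {T c θ D q r l0 thr : ℕ} (hq : q = (T + 1) * (c + θ + D + 1))
    (hthr : thr = T * (2 * c + θ + 1)) (hl0 : l0 ≤ 10 * (thr + T * c + 1)) (hr : r ≤ l0 * c) :
    2 * (T * (θ + 100 * (D + c + r + 1))) + 2 * (T * θ) + T * (2 * c + 1) + 2 * thr ≤
      10 ^ 7 * q ^ 2 := by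
  have h1 : T * (c + θ + D + 1) ≤ q := by
    rw [hq, Nat.add_mul, one_mul]
    exact Nat.le_add_right _ _
  have h2 : c + θ + D + 1 ≤ q := by
    rw [hq, Nat.add_mul, one_mul]
    exact Nat.le_add_left _ _
  have h3 : T * c + T * θ + T * D + T ≤ q := by
    have : T * (c + θ + D + 1) = T * c + T * θ + T * D + T := by ring
    omega
  have h4 : thr = 2 * (T * c) + T * θ + T := by rw [hthr]; ring
  have h5 : l0 ≤ 40 * q := by omega
  have h6 : T * r ≤ 40 * q ^ 2 := by
    calc T * r ≤ T * (l0 * c) := Nat.mul_le_mul_left _ hr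
      _ = l0 * (T * c) := by ring
      _ ≤ (40 * q) * q := Nat.mul_le_mul h5 (by omega)
      _ = 40 * q ^ 2 := by ring
  have h7 : q ≤ q ^ 2 := by
    have : q ^ 2 = q * q := by ring
    rw [this]
    exact Nat.le_mul_of_pos_left q (by omega)
  have h8 : T * (θ + 100 * (D + c + r + 1)) =
      T * θ + 100 * (T * D) + 100 * (T * c) + 100 * (T * r) + 100 * T := by ring
  have h9 : T * (2 * c + 1) = 2 * (T * c) + T := by ring
  rw [h8, h9]
  omega

theorem tau (hT2 : Turn2Stmt) : TauStmt := by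
  intro G _ H c θ T L n M F hn j l y hl hl2 hmin i u
  obtain ⟨q, hq⟩ : ∃ q : ℕ, q = (T + 1) * (c + θ + H.D + 1) := ⟨_, rfl⟩
  have hcst : cstT L = 10 ^ 7 * q ^ 2 := by rw [hq]; rfl
  have hthr : L.thr = T * (2 * c + θ + 1) := rfl
  -- a first form of the numerical estimates
  have hnum0 := tau_num (l0 := 0) (r := 0) hq hthr (Nat.zero_le _) (Nat.zero_le _)
  rw [← hcst] at hnum0
  have hnc : ∀ i, T * (2 * c + 1) ≤ n i := by
    intro i
    have := hn i
    omega
  have hb : ∀ (i : L.ι) (w : G), 2 * |L.s i w 1 y| < n i + T * (2 * c + 1) := by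
    intro i w
    refine fv_min L F i (hnc i) (fun m hm => ?_) w
    have := hmin m hm 0
    rwa [zpow_zero, mul_one] at this
  have hrot : L.s j y 1 (y * L.x j ^ l * y⁻¹) = l := by
    have := L.wf_s_rot j y 1 l
    rwa [mul_one] at this
  by_cases hY : i = j ∧ u⁻¹ * y ∈ Subgroup.zpowers (L.x i)
  · obtain ⟨rfl, t, ht⟩ := hY
    have ht' : L.x i ^ t = u⁻¹ * y := ht
    have hy : y = u * L.x i ^ t := by rw [ht', mul_inv_cancel_left]
    have h1 : L.s i u 1 (y * L.x i ^ l * y⁻¹) = l := by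
      rw [← L.wf_s_base i u t, ← hy]
      exact hrot
    rw [h1]
    have : (0 : ℤ) ≤ cstT L := Int.natCast_nonneg _
    linarith
  have hne : i = j → u⁻¹ * y ∉ Subgroup.zpowers (L.x i) := fun h1 h2 => hY ⟨h1, h2⟩
  have hτy : y * L.x j ^ l * y⁻¹ * y = y * L.x j ^ l := by group
  -- the middle piece
  have hmid : |L.s i u y (y * L.x j ^ l)| ≤ T * θ := by
    have h1 := L.wf_ov (i := i) (j := j) (u := u) (w := y) hne 0 l
    rw [zpow_zero, mul_one] at h1
    have h2 := L.rg_s_le i u y (y * L.x j ^ l)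
    have h3 : ((T * L.D i u y (y * L.x j ^ l) : ℕ) : ℤ) ≤ ((T * θ : ℕ) : ℤ) := by
      exact_mod_cast Nat.mul_le_mul_left T h1
    push_cast at h3
    linarith
  -- the last piece
  have hlast : 2 * |L.s i u (y * L.x j ^ l) (y * L.x j ^ l * y⁻¹)| < n i + T * (2 * c + 1) := by
    have h1 := L.ky_s_mul i (y * L.x j ^ l * y⁻¹) u y 1
    rw [hτy, mul_one] at h1
    rw [h1, L.wf_s_symm, abs_neg]
    exact hb i _
  have hfirst := hb i u
  have hadd1 := L.wf_s_add i u 1 y (y * L.x j ^ l)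
  have hadd2 := L.wf_s_add i u 1 (y * L.x j ^ l) (y * L.x j ^ l * y⁻¹)
  have hadd3 := L.wf_s_add i u y (y * L.x j ^ l) (y * L.x j ^ l * y⁻¹)
  have hadd4 := L.wf_s_add i u 1 y (y * L.x j ^ l * y⁻¹)
  by_cases hbig : 10 * (L.thr + T * c + 1) < l.natAbs
  · -- large exponents
    have hZ : (2 * (T * (θ + 100 * (H.D + c + 0 + 1))) + 2 * (T * θ) + T * (2 * c + 1) +
        2 * L.thr : ℤ) ≤ cstT L := by exact_mod_cast hnum0
    have hp1 : (0 : ℤ) ≤ 2 * (T * (θ + 100 * (H.D + c + 0 + 1))) + 2 * (T * θ) := by positivity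
    rcases L.wf_beh (i := i) (j := j) (u := u) (w := y) hne 1 with h | h
    · have h1 := h l
      have h2 : |L.s i u 1 (y * L.x j ^ l)| ≤ L.thr := by
        rw [Int.abs_eq_natAbs]
        exact_mod_cast h1
      have h3 := abs_add_le (L.s i u 1 (y * L.x j ^ l))
        (L.s i u (y * L.x j ^ l) (y * L.x j ^ l * y⁻¹))
      rw [hadd2] at h3
      linarith
    · rcases L.wf_beh (i := i) (j := j) (u := u) (w := y) hne (y * L.x j ^ l * y⁻¹) with h' | h'
      · have h1 := h' 0
        rw [zpow_zero, mul_one] at h1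
        have h2 : |L.s i u y (y * L.x j ^ l * y⁻¹)| ≤ L.thr := by
          rw [L.wf_s_symm, abs_neg, Int.abs_eq_natAbs]
          exact_mod_cast h1
        have h3 := abs_add_le (L.s i u 1 y) (L.s i u y (y * L.x j ^ l * y⁻¹))
        rw [hadd4] at h3
        linarith
      · exfalso
        have h1 := h 0
        have h2 := h' 0
        rw [zpow_zero, mul_one] at h1 h2
        have h3 := L.wf_s_add j y 1 u (y * L.x j ^ l * y⁻¹)
        rw [hrot, L.wf_s_symm j y (y * L.x j ^ l * y⁻¹) u] at h3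
        omega
  · -- small exponents
    push Not at hbig
    obtain ⟨r, hr⟩ : ∃ r : ℕ, r = H.len (L.x j ^ l) := ⟨_, rfl⟩
    have hr1 : r ≤ l.natAbs * c := by
      rw [hr, L.wf_len_zpow]
      exact (len_pow_le H _ _).trans (Nat.mul_le_mul_left _ (L.xlen j))
    have hnum := tau_num (l0 := l.natAbs) (r := r) hq hthr hbig hr1
    rw [← hcst] at hnum
    have hZ : (2 * (T * (θ + 100 * (H.D + c + r + 1))) + 2 * (T * θ) + T * (2 * c + 1) +
        2 * L.thr : ℤ) ≤ cstT L := by exact_mod_cast hnum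
    have hthr0 : (0 : ℤ) ≤ L.thr := Int.natCast_nonneg _
    have hθ0 : (0 : ℤ) ≤ T * θ := by positivity
    have hmem : (y⁻¹ * u)⁻¹ * ((L.x j ^ l)⁻¹ * (y⁻¹ * u)) ∉ Subgroup.zpowers (L.x i) := by
      rintro ⟨t, ht⟩
      have ht' : L.x i ^ t = (y⁻¹ * u)⁻¹ * ((L.x j ^ l)⁻¹ * (y⁻¹ * u)) := ht
      have hne' : j = i → y⁻¹ * u ∉ Subgroup.zpowers (L.x j) := by
        rintro rfl h
        apply hne rfl
        have := (Subgroup.zpowers (L.x j)).inv_mem h
        rwa [mul_inv_rev, inv_inv] at this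
      have h1 : L.rt j y (-l) = L.rt i u t := by
        unfold LS.rt
        rw [ht', zpow_neg]
        group
      have h2 := L.rg_common hne' h1
      omega
    have hE : ∀ p p' : G, L.D i u p p' ≤ θ + 100 * (H.D + c + r + 1) →
        |L.s i u p p'| ≤ T * (θ + 100 * (H.D + c + r + 1)) := by
      intro p p' h
      have h1 := L.rg_s_le i u p p'
      have h2 : ((T * L.D i u p p' : ℕ) : ℤ) ≤
          ((T * (θ + 100 * (H.D + c + r + 1)) : ℕ) : ℤ) := by
        exact_mod_cast Nat.mul_le_mul_left T h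
      push_cast at h2
      linarith
    rcases hT2 G H c θ T L r (L.x j ^ l) y⁻¹ hr.ge i (y⁻¹ * u) hmem with h | h
    · have h1 := L.ky_D_mul i y u 1 y⁻¹
      rw [mul_one, mul_inv_cancel] at h1
      rw [← h1, L.D_comm] at h
      have h2 := hE _ _ h
      have h3 := abs_add_le (L.s i u 1 y) (L.s i u y (y * L.x j ^ l))
      rw [hadd1] at h3
      have h4 := abs_add_le (L.s i u 1 (y * L.x j ^ l))
        (L.s i u (y * L.x j ^ l) (y * L.x j ^ l * y⁻¹))
      rw [hadd2] at h4
      linarith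
    · have h1 := L.ky_D_mul i y u 1 (L.x j ^ l * y⁻¹)
      rw [mul_one, ← mul_assoc] at h1
      rw [← h1] at h
      have h2 := hE _ _ h
      have h3 := abs_add_le (L.s i u 1 y) (L.s i u y (y * L.x j ^ l * y⁻¹))
      rw [hadd4] at h3
      linarith

end Pool.Agent.Y655.MON
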